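import Pool.Agent.V5helper52.VM.Stm

/-!
Project VM (helper52), job DGB: block diagonal systems.
-/

set_option autoImplicit false

open CategoryTheory AlgebraicGeometry MvPolynomial Pool.Agent.Y116.UV Pool.Agent.V5helper52.SF
  Pool.Agent.V5helper52.TR Pool.Agent.V5helper52.FW Pool.Agent.V5helper52.PT

namespace Pool.Agent.V5helper76.VM

open Pool.Agent.V5helper52.VM

/-- the equivalence of the blocks -/
def blockEquiv {τ : Type} (p : τ → ℕ) (β β' : ℕ) (h : β' ≠ β) :
    {j : τ // p j = β'} ≃ {j : {j : τ // ¬ p j = β} // p j.1 = β'} where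
  toFun x := ⟨⟨x.1, by rw [x.2]; exact h⟩, x.2⟩
  invFun x := ⟨x.1.1, x.2⟩
  left_inv _ := rfl
  right_inv _ := rfl

theorem t_DGB (hblk : S_BLK) : S_DGB := by
  intro k _ P hP E hE κ
  have hL := loc_of_bnd hP.toBnd
  have key : ∀ (N : ℕ) (τ : Type) [Fintype τ], Fintype.card τ = N → ∀ (M : κ → τ → k) (p : τ → ℕ),
      (∀ i j j', M i j ≠ 0 → M i j' ≠ 0 → p j = p j') →
      (∀ β, P (aff k (MvPolynomial {j // p j = β} k ⧸ sysI E fun i j => M i j.1))) →
      P (aff k (MvPolynomial τ k ⧸ sysI E M)) := by
    intro N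
    induction N using Nat.strong_induction_on with
    | _ N ih =>
      intro τ _ hN M p hM h
      rcases isEmpty_or_nonempty τ with he | ⟨⟨j₀⟩⟩
      · refine p_le_one hP ?_ M
        rw [Fintype.card_eq_zero]
        exact Nat.zero_le 1
      · let e : {j : τ // p j = p j₀} ⊕ {j : τ // ¬ p j = p j₀} ≃ τ :=
          Equiv.sumCompl fun j => p j = p j₀
        refine p_equiv e M hL ?_
        refine hblk k P hP E hE κ {j : τ // p j = p j₀} {j : τ // ¬ p j = p j₀}
          (fun i x => M i (e x)) ?_ ?_ ?_
        · intro i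
          by_contra hc
          rw [not_or] at hc
          obtain ⟨h1, h2⟩ := hc
          rw [not_forall] at h1 h2
          obtain ⟨j, hj⟩ := h1
          obtain ⟨j', hj'⟩ := h2
          have h3 : p j.1 = p j'.1 := hM i j.1 j'.1 hj hj'
          exact j'.2 (h3.symm.trans j.2)
        · exact h (p j₀)
        · have hlt : Fintype.card {j : τ // ¬ p j = p j₀} < N := by
            rw [← hN]
            exact Fintype.card_subtype_lt (x := j₀) (by simp)
          refine ih _ hlt {j : τ // ¬ p j = p j₀} rfl (fun i j => M i j.1) (fun j => p j.1)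
            (fun i j j' => hM i j.1 j'.1) ?_
          intro β'
          rcases eq_or_ne β' (p j₀) with hb | hb
          · refine p_le_one hP ?_ _
            have : IsEmpty {j : {j : τ // ¬ p j = p j₀} // p j.1 = β'} :=
              ⟨fun x => x.1.2 (x.2.trans hb)⟩
            rw [Fintype.card_eq_zero]
            exact Nat.zero_le 1
          · exact p_equiv (blockEquiv p (p j₀) β' hb) (fun i j => M i j.1.1) hL (h β')
  intro τ _ M p hM h
  exact key _ τ rfl M p hM h

end Pool.Agent.V5helper76.VM
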